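import Mathlib

/-! Determinant inequalities in a Euclidean space of any dimension. -/

namespace Pool.Agent.MP_3ee8cb_gt.DNA

open Module
open scoped RealInnerProductSpace

variable {E : Type*} [NormedAddCommGroup E] [InnerProductSpace ℝ E]

/-- The inequality of Hadamard. -/
theorem had {ι : Type*} [Fintype ι] (N : E →L[ℝ] E) (b : OrthonormalBasis ι ℝ E) :
    |N.det| ≤ ∏ i, ‖N (b i)‖ := by
  classical
  have key : ∀ (n : ℕ) (c : OrthonormalBasis (Fin n) ℝ E), |N.det| ≤ ∏ i, ‖N (c i)‖ := by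
    intro n c
    have : Fact (finrank ℝ E = n) := ⟨by simpa using finrank_eq_card_basis c.toBasis⟩
    have h := c.toBasis.orientation.abs_volumeForm_apply_le fun i => N (c i)
    rw [Orientation.volumeForm_robust' _ c] at h
    have h2 := c.toBasis.det_comp (N : E →ₗ[ℝ] E) c.toBasis
    rw [Basis.det_self, mul_one] at h2
    have h3 : (fun i => N (c i)) = (N : E →ₗ[ℝ] E) ∘ c.toBasis := by
      funext i; simp
    rw [h3, h2] at h
    exact h
  have h := key _ (b.reindex (Fintype.equivFin ι))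
  refine h.trans (le_of_eq ?_)
  refine (Fintype.prod_equiv (Fintype.equivFin ι) _ _ fun i => ?_).symm
  simp

variable [FiniteDimensional ℝ E]

theorem basis_thru (u : E) (hu : ‖u‖ = 1) :
    ∃ (b : OrthonormalBasis (Fin (finrank ℝ E)) ℝ E) (i : Fin (finrank ℝ E)), b i = u := by
  classical
  have h0 : u ≠ 0 := by rintro rfl; simp at hu
  have : Nontrivial E := ⟨u, 0, h0⟩
  let i : Fin (finrank ℝ E) := ⟨0, finrank_pos⟩
  have ho : Orthonormal ℝ (({i} : Set (Fin (finrank ℝ E))).domRestrict fun _ => u) := by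
    refine ⟨fun _ => hu, fun j k h => (h (Subsingleton.elim j k)).elim⟩
  obtain ⟨b, hb⟩ := ho.exists_orthonormalBasis_extension_of_card_eq (by simp)
  exact ⟨b, i, hb i rfl⟩

/-- One direction is kept, the others are bounded by the norm. -/
theorem had_one (K : E →L[ℝ] E) (l : ℝ) (hl : ∀ v, ‖v‖ = 1 → ‖K v‖ ≤ l) (u : E)
    (hu : ‖u‖ = 1) : |K.det| ≤ ‖K u‖ * l ^ (finrank ℝ E - 1) := by
  classical
  obtain ⟨b, i, hb⟩ := basis_thru u hu
  refine (had K b).trans ?_
  rw [← Finset.mul_prod_erase _ _ (Finset.mem_univ i), hb]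
  refine mul_le_mul_of_nonneg_left ?_ (norm_nonneg _)
  refine (Finset.prod_le_prod (g := fun _ => l) (fun j _ => norm_nonneg _)
    fun j _ => hl _ (b.orthonormal.1 j)).trans (le_of_eq ?_)
  simp

omit [FiniteDimensional ℝ E] in
theorem det_mul_one (A N : E →L[ℝ] E) (h : ∀ e, N (A e) = e) : |A.det| * |N.det| = 1 := by
  have : (N : E →ₗ[ℝ] E) ∘ₗ (A : E →ₗ[ℝ] E) = LinearMap.id := by ext e; simp [h]
  have h2 := congrArg LinearMap.det this
  rw [LinearMap.det_comp, LinearMap.det_id] at h2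
  rw [← abs_mul, mul_comm]
  exact (congrArg abs h2).trans abs_one

omit [FiniteDimensional ℝ E] in
/-- The defect `ψ` is nonnegative. -/
theorem psi_nonneg {ι : Type*} [Fintype ι] (A N : E →L[ℝ] E) (h : ∀ e, N (A e) = e)
    (b : OrthonormalBasis ι ℝ E) :
    0 ≤ |A.det| - 1 + (∑ i, ‖N (b i)‖ ^ 2 - Fintype.card ι) / 2 := by
  have h1 := det_mul_one A N h
  set s : ℝ := (∑ i, ‖N (b i)‖ ^ 2 - Fintype.card ι) / 2 with hs
  have h2 : |N.det| ≤ Real.exp s := by
    refine (had N b).trans ?_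
    have : s = ∑ i, (‖N (b i)‖ ^ 2 - 1) / 2 := by
      rw [hs, ← Finset.sum_div, Finset.sum_sub_distrib]; simp
    rw [this, Real.exp_sum]
    refine Finset.prod_le_prod (fun i _ => norm_nonneg _) fun i _ => ?_
    refine le_trans ?_ (Real.add_one_le_exp _)
    nlinarith [sq_nonneg (‖N (b i)‖ - 1)]
  have h3 : Real.exp (-s) ≤ |A.det| := by
    have h4 : 1 ≤ |A.det| * Real.exp s :=
      h1 ▸ mul_le_mul_of_nonneg_left h2 (abs_nonneg _)
    rw [Real.exp_neg, inv_eq_one_div, div_le_iff₀ (Real.exp_pos s)]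
    exact h4
  have := Real.add_one_le_exp (-s)
  linarith

/-- A bound on the inverse and on the determinant bounds the map. -/
theorem norm_le (A N : E →L[ℝ] E) (h : ∀ e, N (A e) = e) (l : ℝ)
    (hl : ∀ v, ‖v‖ = 1 → ‖N v‖ ≤ l) (e : E) :
    ‖A e‖ ≤ |A.det| * l ^ (finrank ℝ E - 1) * ‖e‖ := by
  by_cases h0 : A e = 0
  · have : e = 0 := by rw [← h e, h0, map_zero]
    simp [this]
  have hp : 0 < ‖A e‖ := norm_pos_iff.2 h0
  have h1 := had_one N l hl (‖A e‖⁻¹ • A e) (by rw [norm_smul]; simp [hp.ne'])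
  rw [map_smul, h, norm_smul, norm_inv, norm_norm] at h1
  have h2 := det_mul_one A N h
  have h3 := mul_le_mul_of_nonneg_left h1 (abs_nonneg A.det)
  rw [h2] at h3
  have h4 := mul_le_mul_of_nonneg_left h3 hp.le
  calc ‖A e‖ = ‖A e‖ * 1 := (mul_one _).symm
    _ ≤ _ := h4
    _ = _ := by field_simp

/-- A map with nonzero determinant has an inverse. -/
theorem exists_inv (M : E →L[ℝ] E) (h : M.det ≠ 0) :
    ∃ W : E →L[ℝ] E, (∀ e, W (M e) = e) ∧ ∀ u, M (W u) = u := by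
  let Q := M.toContinuousLinearEquivOfDetNeZero h
  exact ⟨Q.symm, fun e => Q.symm_apply_apply e, fun u => Q.apply_symm_apply u⟩

theorem det_ne_zero (M : E →L[ℝ] E) (h : ∀ e, M e = 0 → e = 0) : M.det ≠ 0 := by
  intro h0
  have := (LinearMap.det_eq_zero_iff_ker_ne_bot (f := (M : E →ₗ[ℝ] E))).1 h0
  exact this (LinearMap.ker_eq_bot'.2 h)

theorem inj_of_det (M : E →L[ℝ] E) (h : M.det ≠ 0) (e : E) (he : M e = 0) : e = 0 := by
  obtain ⟨W, hW, -⟩ := exists_inv M h
  rw [← hW e, he, map_zero]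

/-- The area element of a spacelike graph. -/
theorem det_le_sqrt [Nontrivial E] (N M : E →L[ℝ] E) (p : E)
    (h : ∀ e, ‖N e‖ ^ 2 ≤ ‖M e‖ ^ 2 - ⟪p, M e⟫ ^ 2) :
    |N.det| ≤ |M.det| * √(1 - ‖p‖ ^ 2) := by
  by_cases hN : N.det = 0
  · rw [hN, abs_zero]; positivity
  have hM : M.det ≠ 0 := det_ne_zero M fun e he => inj_of_det N hN e (by
    have := h e
    rw [he] at this
    simp only [norm_zero, inner_zero_right] at this
    exact norm_eq_zero.1 (by nlinarith [norm_nonneg (N e)]))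
  obtain ⟨W, hW, hW'⟩ := exists_inv M hM
  have hK : ∀ v, ‖(N.comp W) v‖ ^ 2 ≤ ‖v‖ ^ 2 - ⟪p, v⟫ ^ 2 := fun v => by
    have := h (W v)
    rwa [hW'] at this
  obtain ⟨u, hu, hpu⟩ : ∃ u : E, ‖u‖ = 1 ∧ ⟪p, u⟫ ^ 2 = ‖p‖ ^ 2 := by
    by_cases hp : p = 0
    · obtain ⟨u, hu⟩ := exists_norm_eq E zero_le_one
      exact ⟨u, hu, by simp [hp]⟩
    · have := norm_pos_iff.2 hp
      refine ⟨‖p‖⁻¹ • p, by rw [norm_smul]; simp [this.ne'], ?_⟩
      rw [real_inner_smul_right, real_inner_self_eq_norm_sq]; field_simp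
  have h1 := had_one (N.comp W) 1 (fun v hv => by
    have := hK v
    rw [hv] at this
    nlinarith [norm_nonneg ((N.comp W) v), sq_nonneg ⟪p, v⟫]) u hu
  have h2 : ‖(N.comp W) u‖ ≤ √(1 - ‖p‖ ^ 2) := by
    refine Real.le_sqrt_of_sq_le ?_
    have := hK u
    rwa [hu, hpu, one_pow] at this
  have h3 : N.det = (N.comp W).det * M.det := by
    have : (N : E →ₗ[ℝ] E) = ((N.comp W : E →L[ℝ] E) : E →ₗ[ℝ] E) ∘ₗ (M : E →ₗ[ℝ] E) := by
      ext e; simp [hW]
    rw [ContinuousLinearMap.det, this, LinearMap.det_comp]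
  rw [h3, abs_mul, mul_comm]
  refine mul_le_mul_of_nonneg_left (h1.trans ?_) (abs_nonneg _)
  simpa using h2

end Pool.Agent.MP_3ee8cb_gt.DNA
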