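import Pool.Agent.MP_3ee8cb_gt.DNC.Cov
import Pool.Agent.MP_3ee8cb_gt.DNA.Alg

/-! Homogeneous maps with invertible derivative: inverse and change of variables on the sphere. -/

namespace Pool.Agent.MP_3ee8cb_gt.DNA

open Set Filter Topology MeasureTheory Metric Module
open DNC (Rad op0)

variable {E : Type*} [NormedAddCommGroup E] [InnerProductSpace ℝ E]
  {F : Type*} [NormedAddCommGroup F] [NormedSpace ℝ F]

omit [InnerProductSpace ℝ E] in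
theorem ne0 {a : E} (ha : ‖a‖ = 1) : a ≠ 0 := norm_ne_zero_iff.1 (by rw [ha]; exact one_ne_zero)

theorem dat {f : E → F} (h : ContDiffOn ℝ 1 f {a | a ≠ 0}) {a : E} (ha : a ≠ 0) :
    HasFDerivAt f (fderiv ℝ f a) a :=
  ((h.contDiffAt (op0.mem_nhds ha)).differentiableAt one_ne_zero).hasFDerivAt

theorem cfd {f : E → F} (h : ContDiffOn ℝ 1 f {a | a ≠ 0}) :
    ContinuousOn (fderiv ℝ f) {a | a ≠ 0} :=
  h.continuousOn_fderiv_of_isOpen op0 le_rfl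

/-- The derivative of a homogeneous map is invariant under dilations. -/
theorem fd_hom {f : E → F} (h : ContDiffOn ℝ 1 f {a | a ≠ 0})
    (hh : ∀ (r : ℝ) a, r ≠ 0 → a ≠ 0 → f (r • a) = r • f a) {a : E} (ha : a ≠ 0) {r : ℝ}
    (hr : r ≠ 0) : fderiv ℝ f (r • a) = fderiv ℝ f a := by
  have h1 : HasFDerivAt (fun x => f (r • x))
      ((fderiv ℝ f (r • a)).comp (r • ContinuousLinearMap.id ℝ E)) a :=
    (dat h (smul_ne_zero hr ha)).comp a ((hasFDerivAt_id a).const_smul r)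
  have h2 : HasFDerivAt (fun x => f (r • x)) (r • fderiv ℝ f a) a := by
    refine ((dat h ha).const_smul r).congr_of_eventuallyEq ?_
    filter_upwards [op0.mem_nhds ha] with x hx using hh r x hr hx
  have h3 := h1.unique h2
  ext v
  have h4 := congrArg (fun L : E →L[ℝ] F => L v) h3
  simp only [ContinuousLinearMap.comp_apply, smul_apply,
    ContinuousLinearMap.id_apply, map_smul] at h4
  exact smul_right_injective F hr h4

/-- The radial derivative. -/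
theorem radial {f : E → F} {a : E} {L : E →L[ℝ] F} (h : HasFDerivAt f L a) {g : ℝ → F} {v : F}
    (hg : HasDerivAt g v 1) (he : ∀ r : ℝ, 0 < r → f (r • a) = g r) : L a = v := by
  have h0 : HasDerivAt (fun r : ℝ => r • a) a 1 := by
    simpa using (hasDerivAt_id (1 : ℝ)).smul_const a
  have h1 : HasDerivAt (fun r : ℝ => f (r • a)) (L a) 1 :=
    HasFDerivAt.comp_hasDerivAt (1 : ℝ) (by simpa using h) h0
  refine h1.unique (hg.congr_of_eventuallyEq ?_)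
  filter_upwards [lt_mem_nhds one_pos] with r hr using he r hr

/-- A homogeneous map of class `C¹` without zeros and with invertible derivative. -/
structure Hm (ξ : E → E) : Prop where
  c1 : ContDiffOn ℝ 1 ξ {a | a ≠ 0}
  hom : ∀ (r : ℝ) a, r ≠ 0 → a ≠ 0 → ξ (r • a) = r • ξ a
  ne : ∀ a, a ≠ 0 → ξ a ≠ 0
  det : ∀ a, ‖a‖ = 1 → (fderiv ℝ ξ a).det ≠ 0

/-- The radial normalisation. -/
noncomputable def nz (ξ : E → E) (a : E) : E := (‖a‖ / ‖ξ a‖) • ξ a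

namespace Hm

variable {ξ : E → E}

theorem c_norm (h : Hm ξ) : ContDiffOn ℝ 1 (fun a => ‖ξ a‖) {a | a ≠ 0} :=
  h.c1.norm ℝ fun a ha => h.ne a ha

theorem c_nz (h : Hm ξ) : ContDiffOn ℝ 1 (nz ξ) {a | a ≠ 0} :=
  ((contDiffOn_id.norm ℝ fun _ ha => ha).div h.c_norm
    fun a ha => norm_ne_zero_iff.2 (h.ne a ha)).smul h.c1

theorem nz_hom (h : Hm ξ) (r : ℝ) (a : E) (hr : r ≠ 0) (ha : a ≠ 0) :
    nz ξ (r • a) = r • nz ξ a := by
  unfold nz
  rw [h.hom r a hr ha, norm_smul, norm_smul, mul_div_mul_left _ _ (norm_ne_zero_iff.2 hr),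
    smul_comm]

theorem nz_norm (h : Hm ξ) (a : E) (ha : a ≠ 0) : ‖nz ξ a‖ = ‖a‖ := by
  unfold nz
  rw [norm_smul, norm_div, norm_norm, norm_norm,
    div_mul_cancel₀ _ (norm_ne_zero_iff.2 (h.ne a ha))]

theorem eq_nz (h : Hm ξ) (a : E) (ha : a ≠ 0) : ξ a = (‖ξ a‖ / ‖a‖) • nz ξ a := by
  unfold nz
  have h1 := norm_ne_zero_iff.2 (h.ne a ha)
  have h2 := norm_ne_zero_iff.2 ha
  rw [smul_smul, show ‖ξ a‖ / ‖a‖ * (‖a‖ / ‖ξ a‖) = 1 by field_simp, one_smul]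

variable [FiniteDimensional ℝ E]

theorem det_nz (h : Hm ξ) {a : E} (ha : ‖a‖ = 1) :
    (fderiv ℝ ξ a).det = ‖ξ a‖ ^ finrank ℝ E * (fderiv ℝ (nz ξ) a).det := by
  have h0 := ne0 ha
  have hx := norm_ne_zero_iff.2 (h.ne a h0)
  have cρ : ContDiffOn ℝ 1 (fun a => ‖ξ a‖ / ‖a‖) {a | a ≠ 0} :=
    h.c_norm.div (contDiffOn_id.norm ℝ fun _ ha => ha) fun a ha => norm_ne_zero_iff.2 ha
  have dρ := dat cρ h0
  have dZ := dat h.c_nz h0
  set φ := fderiv ℝ (fun a => ‖ξ a‖ / ‖a‖) a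
  set L := fderiv ℝ (nz ξ) a
  have e1 : φ a = 0 := radial dρ (hasDerivAt_const 1 (‖ξ a‖ / ‖a‖)) fun r hr => by
    simp only [h.hom r a hr.ne' h0, norm_smul]
    exact mul_div_mul_left _ _ (norm_ne_zero_iff.2 hr.ne')
  have e2 : L a = nz ξ a := radial dZ (g := fun r => r • nz ξ a)
    (by simpa using (hasDerivAt_id (1 : ℝ)).smul_const (nz ξ a))
    fun r hr => h.nz_hom r a hr.ne' h0
  have d1 : HasFDerivAt ξ ((‖ξ a‖ / ‖a‖) • L + φ.smulRight (nz ξ a)) a := by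
    refine (dρ.smul dZ).congr_of_eventuallyEq ?_
    filter_upwards [op0.mem_nhds h0] with x hx using h.eq_nz x hx
  have e3 : ((fderiv ℝ ξ a : E →L[ℝ] E) : E →ₗ[ℝ] E) = ‖ξ a‖ • ((L : E →ₗ[ℝ] E) ∘ₗ
      LinearMap.transvection (φ : E →ₗ[ℝ] ℝ) (‖ξ a‖⁻¹ • a)) := by
    ext e
    rw [d1.fderiv]
    have : ‖ξ a‖ * (φ e * ‖ξ a‖⁻¹) = φ e := by field_simp
    simp [LinearMap.transvection.apply, ha, e2, smul_smul, this]
  rw [ContinuousLinearMap.det, e3, LinearMap.det_smul, LinearMap.det_comp,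
    LinearMap.transvection.det]
  simp [e1]

theorem rad (h : Hm ξ) : Rad (nz ξ) :=
  ⟨h.c_nz, h.nz_hom, h.nz_norm, fun a ha e => h.det a ha (by rw [h.det_nz ha, e, mul_zero])⟩

/-- The inverse map. -/
theorem inv (h : Hm ξ) (hd : 3 ≤ finrank ℝ E) :
    ∃ X : E → E, ContDiffOn ℝ 1 X {a | a ≠ 0} ∧
      (∀ (r : ℝ) a, r ≠ 0 → a ≠ 0 → X (r • a) = r • X a) ∧ (∀ u, u ≠ 0 → X u ≠ 0) ∧
      (∀ a, a ≠ 0 → X (ξ a) = a) ∧ (∀ u, u ≠ 0 → ξ (X u) = u) ∧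
      (∀ a e, a ≠ 0 → fderiv ℝ X (ξ a) (fderiv ℝ ξ a e) = e) ∧
      ∀ u v, u ≠ 0 → fderiv ℝ ξ (X u) (fderiv ℝ X u v) = v := by
  obtain ⟨W, hW, l, r, -⟩ := h.rad.inv hd
  have n1 : ∀ u, u ≠ 0 → ‖ξ (W u)‖ ≠ 0 := fun u hu => norm_ne_zero_iff.2 (h.ne _ (hW.ne hu))
  have n2 : ∀ u : E, u ≠ 0 → ‖u‖ / ‖ξ (W u)‖ ≠ 0 := fun u hu =>
    div_ne_zero (norm_ne_zero_iff.2 hu) (n1 u hu)
  set X : E → E := fun u => (‖u‖ / ‖ξ (W u)‖) • W u with hX
  have cX : ContDiffOn ℝ 1 X {a | a ≠ 0} :=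
    ((contDiffOn_id.norm ℝ fun _ ha => ha).div (h.c_norm.comp hW.c1 fun u hu => hW.ne hu)
      n1).smul hW.c1
  have nX : ∀ u, u ≠ 0 → X u ≠ 0 := fun u hu => smul_ne_zero (n2 u hu) (hW.ne hu)
  have rX : ∀ u, u ≠ 0 → ξ (X u) = u := fun u hu => by
    have := r u hu
    unfold nz at this
    rw [hW.norm u hu] at this
    simp only [hX]
    rw [h.hom _ _ (n2 u hu) (hW.ne hu), this]
  have lX : ∀ a, a ≠ 0 → X (ξ a) = a := fun a ha => by
    have h1 := norm_ne_zero_iff.2 (h.ne a ha)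
    have h2 := norm_ne_zero_iff.2 ha
    have h3 : ‖ξ a‖ / ‖a‖ ≠ 0 := div_ne_zero h1 h2
    have h4 : W (ξ a) = (‖ξ a‖ / ‖a‖) • a := by
      conv_lhs => rw [h.eq_nz a ha]
      rw [hW.hom _ _ h3 (h.rad.ne ha), l a ha]
    simp only [hX]
    rw [h4, h.hom _ _ h3 ha, norm_smul, norm_div, norm_norm, norm_norm, smul_smul,
      show ‖ξ a‖ / (‖ξ a‖ / ‖a‖ * ‖ξ a‖) * (‖ξ a‖ / ‖a‖) = 1 by field_simp, one_smul]
  refine ⟨X, cX, fun s u hs hu => ?_, nX, lX, rX, fun a e ha => ?_, fun u v hu => ?_⟩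
  · rw [← lX (s • X u) (smul_ne_zero hs (nX u hu)), h.hom s _ hs (nX u hu), rX u hu]
  · have h1 := (dat cX (h.ne a ha)).comp a (dat h.c1 ha)
    have h2 : HasFDerivAt (X ∘ ξ) (.id ℝ E) a := by
      refine (hasFDerivAt_id a).congr_of_eventuallyEq ?_
      filter_upwards [op0.mem_nhds ha] with x hx using lX x hx
    exact congrArg (fun L : E →L[ℝ] E => L e) (h1.unique h2)
  · have h1 := (dat h.c1 (nX u hu)).comp u (dat cX hu)
    have h2 : HasFDerivAt (ξ ∘ X) (.id ℝ E) u := by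
      refine (hasFDerivAt_id u).congr_of_eventuallyEq ?_
      filter_upwards [op0.mem_nhds hu] with x hx using rX x hx
    exact congrArg (fun L : E →L[ℝ] E => L v) (h1.unique h2)

variable [MeasurableSpace E] [BorelSpace E] (μ : Measure E) [μ.IsAddHaarMeasure]

/-- Change of variables on the unit sphere. -/
theorem cov_int (h : Hm ξ) (hd : 3 ≤ finrank ℝ E) (f : E → ℝ) :
    ∫ u : sphere (0 : E) 1, f u ∂μ.toSphere =
      ∫ a : sphere (0 : E) 1, |(fderiv ℝ ξ a).det| / ‖ξ a‖ ^ finrank ℝ E *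
        f (‖ξ a‖⁻¹ • ξ a) ∂μ.toSphere := by
  rw [h.rad.cov_int μ hd f]
  refine integral_congr_ae (.of_forall fun a => ?_)
  have ha : ‖(a : E)‖ = 1 := mem_sphere_zero_iff_norm.1 a.2
  have hx := norm_pos_iff.2 (h.ne a (ne0 ha))
  beta_reduce
  rw [h.det_nz ha, abs_mul, abs_of_pos (pow_pos hx _), mul_div_cancel_left₀ _ (pow_pos hx _).ne']
  unfold nz
  rw [ha, one_div]

end Hm

end Pool.Agent.MP_3ee8cb_gt.DNA
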