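import Pool.Agent.MP_3ee8cb_gt.DN.Spec2
import Pool.Agent.MP_3ee8cb_gt.DNA.Hom

/-! The area bound in de Sitter space from the area bound for graphs. -/

namespace Pool.Agent.MP_3ee8cb_gt.DN

variable [Dim]

open Set MeasureTheory Metric Module
open scoped RealInnerProductSpace
open DNA (Hm dat cfd fd_hom ne0)

theorem sGA_of (hG : SG) : SGA := by
  intro t ξ N h _ hN
  have hn : finrank ℝ V = dm := by simp
  have hd : 3 ≤ finrank ℝ V := by rw [hn]; exact Nat.le_add_left _ _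
  have nt : Nontrivial V := Module.nontrivial_of_finrank_pos (R := ℝ) (by omega)
  have hm : Hm ξ := by
    refine ⟨h.hx.c1, h.hx.hom, fun a ha e => ?_, fun a ha => ?_⟩
    · have := h.nm a ha
      rw [e, norm_zero] at this
      nlinarith [norm_pos_iff.2 ha, sq_nonneg (t a)]
    · refine DNA.det_ne_zero _ fun e he => DNA.inj_of_det _ (hN a ha).1 e ?_
      have := (hN a ha).2 e
      rw [he, norm_zero] at this
      exact norm_eq_zero.1 (by nlinarith [norm_nonneg (N a e), sq_nonneg (fderiv ℝ t a e)])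
  obtain ⟨X, cX, hX, nX, lX, rX, dX, -⟩ := hm.inv hd
  set τ : V → ℝ := fun u => t (X u) with hτ
  have cτ : ContDiffOn ℝ 1 τ {a | a ≠ 0} := h.ht.c1.comp cX nX
  have oτ : ∀ (r : ℝ) a, r ≠ 0 → a ≠ 0 → τ (r • a) = r • τ a := fun r a hr ha => by
    simp only [hτ]
    rw [hX r a hr ha, h.ht.hom r _ hr (nX a ha)]
  have ch : ∀ a e, a ≠ 0 → fderiv ℝ τ (ξ a) (fderiv ℝ ξ a e) = fderiv ℝ t a e := fun a e ha => by
    have h0 := hm.ne a ha
    have h1 : HasFDerivAt τ _ (ξ a) := (dat h.ht.c1 (nX _ h0)).comp (ξ a) (dat cX h0)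
    rw [h1.fderiv, ContinuousLinearMap.comp_apply, dX a e ha, lX a ha]
  have key : ∀ a, ‖a‖ = 1 →
      |(N a).det| ≤ |(fderiv ℝ ξ a).det| * √(1 - ‖fderiv ℝ τ (ξ a)‖ ^ 2) := fun a ha => by
    have := DNA.det_le_sqrt (N a) (fderiv ℝ ξ a)
      ((InnerProductSpace.toDual ℝ V).symm (fderiv ℝ τ (ξ a))) fun e => by
        rw [InnerProductSpace.toDual_symm_apply, ch a e (ne0 ha)]
        exact (hN a ha).2 e
    rwa [LinearIsometryEquiv.norm_map] at this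
  have lt1 : ∀ u, ‖u‖ = 1 → ‖fderiv ℝ τ u‖ < 1 := fun u hu => by
    have h0 := nX u (ne0 hu)
    have h1 : ‖X u‖⁻¹ ≠ 0 := inv_ne_zero (norm_ne_zero_iff.2 h0)
    have h2 := key _ (DNC.Rad.unit h0)
    rw [hm.hom _ _ h1 h0, rX u (ne0 hu), fd_hom cτ oτ (ne0 hu) h1] at h2
    have h3 := (abs_pos.2 (hN _ (DNC.Rad.unit h0)).1).trans_le h2
    have h4 : 0 < 1 - ‖fderiv ℝ τ u‖ ^ 2 := Real.sqrt_pos.1 (lt_of_le_of_ne (Real.sqrt_nonneg _)
      fun e => by rw [← e, mul_zero] at h3; exact lt_irrefl _ h3)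
    nlinarith [norm_nonneg (fderiv ℝ τ u)]
  refine le_trans ?_ (hG τ ⟨cτ, oτ⟩ lt1)
  unfold sph
  rw [hm.cov_int volume hd fun a => √(1 - ‖fderiv ℝ τ a‖ ^ 2) / √(1 - τ a ^ 2) ^ dm]
  have e1 : ∀ a : sphere (0 : V) 1, |(fderiv ℝ ξ a).det| / ‖ξ a‖ ^ finrank ℝ V *
      (√(1 - ‖fderiv ℝ τ (‖ξ a‖⁻¹ • ξ a)‖ ^ 2) / √(1 - τ (‖ξ a‖⁻¹ • ξ a) ^ 2) ^ dm) =
      |(fderiv ℝ ξ a).det| * √(1 - ‖fderiv ℝ τ (ξ a)‖ ^ 2) := fun a => by
    have ha : ‖(a : V)‖ = 1 := mem_sphere_zero_iff_norm.1 a.2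
    have h0 := hm.ne a (ne0 ha)
    have hp := norm_pos_iff.2 h0
    have h1 : ‖ξ a‖⁻¹ ≠ 0 := inv_ne_zero hp.ne'
    have h2 : 1 - τ (‖ξ a‖⁻¹ • ξ a) ^ 2 = ‖ξ a‖⁻¹ ^ 2 := by
      have h3 := h.nm a (ne0 ha)
      rw [ha] at h3
      rw [oτ _ _ h1 h0]
      simp only [hτ, lX a (ne0 ha), smul_eq_mul]
      field_simp
      linarith
    rw [fd_hom cτ oτ h0 h1, h2, Real.sqrt_sq (inv_nonneg.2 hp.le), hn, inv_pow]
    field_simp
  simp only [e1]
  have s0 : ∀ a : sphere (0 : V) 1, (a : V) ≠ 0 := fun a => ne0 (mem_sphere_zero_iff_norm.1 a.2)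
  have c1 : Continuous fun a : sphere (0 : V) 1 => fderiv ℝ ξ a :=
    (cfd hm.c1).comp_continuous continuous_subtype_val s0
  have c2 : Continuous fun a : sphere (0 : V) 1 => fderiv ℝ τ (ξ a) :=
    (cfd cτ).comp_continuous (hm.c1.continuousOn.comp_continuous continuous_subtype_val s0)
      fun a => hm.ne a (s0 a)
  refine integral_mono_of_nonneg (.of_forall fun a => abs_nonneg _) ?_
    (.of_forall fun a => key a (mem_sphere_zero_iff_norm.1 a.2))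
  refine Continuous.integrable_of_hasCompactSupport ?_ (HasCompactSupport.of_compactSpace _)
  exact (ContinuousLinearMap.continuous_det.comp c1).abs.mul
    (continuous_const.sub (c2.norm.pow 2)).sqrt

theorem ga_of (hG : SG) (_ : SCOV) : SGA := sGA_of hG

end Pool.Agent.MP_3ee8cb_gt.DN
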